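import Pool.Agent.Lib.MP_28303a_al.NT.ER71.Rel
import Pool.Agent.Lib.MP_28303a_al.NT.InK

/-! # The relative theorem for several trees -/

set_option autoImplicit false
set_option linter.unusedSectionVars false
set_option linter.unusedVariables false

namespace Pool.Agent.NegK.NT.ER71

universe u

open CategoryTheory Limits
open Pool.Agent.NegK.TW Pool.Agent.NegK.NT.ER

/-- The stabilizer of the coordinates in `I`. -/
def stI {Γ : Type u} [Group Γ] (Y : Trees Γ) (I : Finset (Fin Y.m)) (v : ∀ i, Y.V i) :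
    Subgroup Γ := ⨅ i ∈ I, MulAction.stabilizer Γ (v i)

theorem mem_stI {Γ : Type u} [Group Γ] {Y : Trees Γ} {I : Finset (Fin Y.m)} {v : ∀ i, Y.V i}
    {g : Γ} : g ∈ stI Y I v ↔ ∀ i ∈ I, g • v i = v i := by
  rw [stI, Subgroup.mem_iInf]
  refine forall_congr' fun i => ?_
  rw [Subgroup.mem_iInf]
  exact Iff.rfl

/-- The stabilizers of an edge of a tree in `I` and of vertices of all other trees are in `ℛ`. -/
def EdgeR {Γ : Type u} [Group Γ] (Y : Trees Γ) (I : Finset (Fin Y.m)) : Prop :=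
  ∀ i ∈ I, ∀ (v : ∀ i, Y.V i) (w : Y.V i), (Y.G i).Adj (v i) w →
    InRC (Y.st v ⊓ MulAction.stabilizer Γ w : Subgroup Γ)

/-- The restriction to a subgroup. -/
@[reducible] def res {Γ : Type u} [Group Γ] (Y : Trees Γ) (H : Subgroup Γ) : Trees H where
  m := Y.m
  V := Y.V
  act := fun _ => inferInstance
  G := Y.G
  tree := fun i => TT.treeAct_sub (Y.tree i) H

theorem edgeR_res {Γ : Type u} [Group Γ] {Y : Trees Γ} {I J : Finset (Fin Y.m)} (hJ : J ⊆ I)
    (h : EdgeR Y I) (H : Subgroup Γ) : EdgeR (res Y H) J := by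
  intro i hi v w hvw
  have h1 := h i (hJ hi) v w hvw
  have h2 : ((res Y H).st v ⊓ MulAction.stabilizer H w : Subgroup H) =
      (Y.st v ⊓ MulAction.stabilizer Γ w : Subgroup Γ).subgroupOf H := by
    ext g
    rw [Subgroup.mem_subgroupOf, Subgroup.mem_inf, Subgroup.mem_inf, Trees.st, Trees.st,
      Subgroup.mem_iInf, Subgroup.mem_iInf]
    rfl
  rw [h2]
  exact TT.inRC_equiv (TT.subEquiv H _).symm (TT.inRC_le TT.H91.sub inf_le_right h1)

theorem iter_aux (hRel : RelStatement.{u}) (n : ℕ) : ∀ (Γ : Type u) [Group Γ] (Y : Trees Γ)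
    (I : Finset (Fin Y.m)), I.card = n → EdgeR Y I → ∀ (k : Type u) [Ring k], RegularRing k →
    ⨆ v : ∀ i, Y.V i, img k (stI Y I v) = ⊤ := by
  classical
  induction n with
  | zero =>
    intro Γ _ Y I hI h k _ hk
    have hI' : I = ∅ := Finset.card_eq_zero.1 hI
    subst hI'
    have hn : ∀ i, Nonempty (Y.V i) := fun i => (Y.tree i).tree.connected.nonempty
    let v : ∀ i, Y.V i := fun i => (hn i).some
    rw [eq_top_iff, ← img_top k Γ (H := stI Y ∅ v)
      (Subgroup.ext fun g => ⟨fun _ => Subgroup.mem_top g, fun _ =>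
        mem_stI.2 fun i hi => absurd hi (Finset.notMem_empty i)⟩)]
    exact le_iSup (fun v => img k (stI Y ∅ v)) v
  | succ n ih =>
    intro Γ _ Y I hI h k _ hk
    obtain ⟨i, hi⟩ : I.Nonempty := Finset.card_pos.1 (by omega)
    rw [eq_top_iff, ← hRel Γ Y i (fun v w hvw => h i hi v w hvw) k hk]
    refine iSup_le fun x => ?_
    have h1 := ih (MulAction.stabilizer Γ x) (res Y (MulAction.stabilizer Γ x)) (I.erase i)
      (by rw [Finset.card_erase_of_mem hi, hI]; rfl)
      (edgeR_res (Finset.erase_subset i I) h _) k hk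
    rw [img, AddMonoidHom.range_eq_map, ← h1, AddSubgroup.map_iSup]
    refine iSup_le fun v => ?_
    refine le_trans ?_ (le_iSup (fun v => img k (stI Y I v)) (Function.update v i x))
    rintro _ ⟨_, ⟨z, rfl⟩, rfl⟩
    let φ : stI (res Y (MulAction.stabilizer Γ x)) (I.erase i) v →*
        stI Y I (Function.update v i x) :=
      { toFun := fun g => ⟨g.1.1, mem_stI.2 fun a ha => by
          by_cases hai : a = i
          · subst hai
            rw [Function.update_self]
            exact g.1.2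
          · rw [Function.update_of_ne hai]
            exact congrArg id (mem_stI.1 g.2 a (Finset.mem_erase.2 ⟨hai, ha⟩))⟩
        map_one' := rfl
        map_mul' := fun _ _ => rfl }
    refine ⟨K0.map (mdr k φ) z, ?_⟩
    rw [k0_map_map, mdr_comp_mdr, k0_map_map, mdr_comp_mdr]
    rfl

/-- The relative theorem for the trees in `I`. -/
theorem iter (hRel : RelStatement.{u}) {Γ : Type u} [Group Γ] (Y : Trees Γ)
    (I : Finset (Fin Y.m)) (h : EdgeR Y I) (k : Type u) [Ring k] (hk : RegularRing k) :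
    ⨆ v : ∀ i, Y.V i, img k (stI Y I v) = ⊤ := iter_aux hRel _ Γ Y I rfl h k hk

/-- The negative K-groups are generated by the stabilizers. -/
theorem iter_kneg (hRel : RelStatement.{u}) {Γ : Type u} [Group Γ] (Y : Trees Γ)
    (I : Finset (Fin Y.m)) (h : EdgeR Y I) (R : Type u) [Ring R] (hR : RegularRing R) (n : ℕ) :
    ⨆ v : ∀ i, Y.V i, ((KNegFun n).hom (mdr R (stI Y I v).subtype)).range = ⊤ :=
  H19.vgen (fun v => stI Y I v) (fun k _ hk => iter hRel Y I h k hk) n R hR

/-- The theorem on the trees in `I` for the class `𝒞`. -/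
def TreesI (𝒞 : (G : Type u) → [Group G] → Prop) : Prop :=
  ∀ (Γ : Type u) [Group Γ] (Y : Trees Γ) (I : Finset (Fin Y.m)), EdgeR Y I →
    (∀ v, 𝒞 (stI Y I v)) → 𝒞 Γ

theorem stI_univ {Γ : Type u} [Group Γ] (Y : Trees Γ) (v : ∀ i, Y.V i) :
    stI Y Finset.univ v = Y.st v := by
  ext g
  rw [stI, Trees.st, Subgroup.mem_iInf, Subgroup.mem_iInf]
  refine forall_congr' fun i => ?_
  rw [Subgroup.mem_iInf]
  exact ⟨fun h => h (Finset.mem_univ i), fun h _ => h⟩

theorem st_le_stI {Γ : Type u} [Group Γ] (Y : Trees Γ) (I : Finset (Fin Y.m)) (v : ∀ i, Y.V i) :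
    Y.st v ≤ stI Y I v := by
  rw [stI, Trees.st]
  exact le_iInf fun i => le_iInf fun _ => iInf_le _ i

theorem edgeR_mono {Γ : Type u} [Group Γ] {Y : Trees Γ} {I J : Finset (Fin Y.m)} (hJ : J ⊆ I)
    (h : EdgeR Y I) : EdgeR Y J := fun i hi => h i (hJ hi)

/-- Stabilizers of vertices in `ℛ` are enough. -/
theorem edgeR_of_st {Γ : Type u} [Group Γ] {Y : Trees Γ} (I : Finset (Fin Y.m))
    (h : ∀ v, InRC (Y.st v)) : EdgeR Y I :=
  fun i _ v w _ => TT.inRC_le TT.H91.sub inf_le_left (h v)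

/-- All trees: the stabilizers of the vertices of the product are in `𝒞`, those of the edges in
`ℛ`. -/
theorem TreesI.all {𝒞 : (G : Type u) → [Group G] → Prop} (h : TreesI 𝒞) {Γ : Type u} [Group Γ]
    (Y : Trees Γ) (hE : EdgeR Y Finset.univ) (hv : ∀ v, 𝒞 (Y.st v)) : 𝒞 Γ := by
  refine h Γ Y Finset.univ hE fun v => ?_
  rw [stI_univ]
  exact hv v

theorem inL_gen {Γ ι : Type u} [Group Γ] (H : ι → Subgroup Γ)
    (h : ∀ (k : Type u) [Ring k], RegularRing k → ⨆ v, img k (H v) = ⊤)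
    (hst : ∀ v, H19.InL (H v)) : H19.InL Γ := by
  intro R _ hR
  have h1 := h (LaurentPolynomial R) (H78.lreg H50.ext R hR)
  intro z
  have h2 : (⊤ : AddSubgroup (K0 (LG R Γ))) ≤
      (K0.map (cmap Γ (LaurentPolynomial.C : R →+* LaurentPolynomial R))).range := by
    rw [← h1]
    refine iSup_le fun v => ?_
    rintro _ ⟨x, rfl⟩
    obtain ⟨y, rfl⟩ := hst v R hR x
    refine ⟨K0.map (mdr R (H v).subtype) y, ?_⟩
    rw [k0_map_map, k0_map_map, H19.mdr_cmap]
  exact h2 (AddSubgroup.mem_top z)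

theorem inK_gen {Γ ι : Type u} [Group Γ] (H : ι → Subgroup Γ)
    (h : ∀ (k : Type u) [Ring k], RegularRing k → ⨆ v, img k (H v) = ⊤)
    (hst : ∀ v, InK (H v)) : InK Γ := by
  intro R _ hR
  rw [← AddMonoidHom.range_eq_top, eq_top_iff, ← h R hR]
  refine iSup_le fun v => ?_
  rintro _ ⟨y, rfl⟩
  obtain ⟨x, rfl⟩ := hst v R hR y
  exact ⟨x, by rw [k0_map_map, mdr_comp_cst]⟩

theorem iter_inL (hRel : RelStatement.{u}) {Γ : Type u} [Group Γ] (Y : Trees Γ)
    (I : Finset (Fin Y.m)) (h : EdgeR Y I) (hst : ∀ v, H19.InL (stI Y I v)) : H19.InL Γ :=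
  inL_gen (fun v => stI Y I v) (fun k _ hk => iter hRel Y I h k hk) hst

theorem iter_inK (hRel : RelStatement.{u}) {Γ : Type u} [Group Γ] (Y : Trees Γ)
    (I : Finset (Fin Y.m)) (h : EdgeR Y I) (hst : ∀ v, InK (stI Y I v)) : InK Γ :=
  inK_gen (fun v => stI Y I v) (fun k _ hk => iter hRel Y I h k hk) hst

theorem treesI_inL (hRel : RelStatement.{u}) : TreesI.{u} H19.InL :=
  fun _ _ Y I h hst => iter_inL hRel Y I h hst

theorem treesI_inK (hRel : RelStatement.{u}) : TreesI.{u} InK :=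
  fun _ _ Y I h hst => iter_inK hRel Y I h hst

end Pool.Agent.NegK.NT.ER71
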