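import Pool.Agent.Lib.MP_28303a_al.NT.InK

/-! # Generation by subgroups: local and transitive -/

set_option autoImplicit false
set_option linter.unusedSectionVars false
set_option linter.unusedVariables false

namespace Pool.Agent.NegK.NT.ER71

universe u

open Pool.Agent.NegK.TW Pool.Agent.NegK.TT

/-- If every finite subset is in a subgroup `H` such that the image of `K₀(k[H])` is in `A`, then
`A` is everything. -/
theorem gen_loc {Γ : Type u} [Group Γ] (k : Type u) [Ring k]
    (A : AddSubgroup (K0 (MonoidAlgebra k Γ)))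
    (h : ∀ S : Finset Γ, ∃ H : Subgroup Γ, (∀ s ∈ S, s ∈ H) ∧ img k H ≤ A) : A = ⊤ := by
  classical
  rw [eq_top_iff]
  intro z _
  refine Pool.Agent.NegK.H50.K0_eq_top (H := A) ?_ z
  intro p
  obtain ⟨H, hS, hH⟩ := h (Finset.univ.biUnion fun a => Finset.univ.biUnion fun b =>
      (p.e a b).coeff.support)
  have hF : Function.Injective H.subtype := H.subtype_injective
  have hsupp : MSupp (Set.range H.subtype) p.e := by
    rintro a b g hg
    refine ⟨⟨g, hS g ?_⟩, rfl⟩
    rw [Finset.mem_biUnion]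
    refine ⟨a, Finset.mem_univ _, ?_⟩
    rw [Finset.mem_biUnion]
    exact ⟨b, Finset.mem_univ _, Finsupp.mem_support_iff.2 hg⟩
  obtain ⟨β, hβ⟩ := MSupp.exists_map hF hsupp
  have hinj : Function.Injective (fun γ : Matrix _ _ (MonoidAlgebra k H) =>
      (γ.map (mdr k H.subtype) : Matrix (Fin p.n) (Fin p.n) _)) := by
    intro x y hxy
    ext1 a b
    exact mdr_injective hF (congrFun (congrFun hxy a) b)
  have hidem : β * β = β := by
    apply hinj
    show (β * β).map (mdr k H.subtype) = β.map (mdr k H.subtype)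
    rw [Matrix.map_mul, hβ, p.idem]
  refine hH ⟨mcls β hidem, ?_⟩
  have h1 : K0.map (mdr k H.subtype) (mcls β hidem) = mcls p.e p.idem := by
    rw [mcls_map]
    exact mcls_congr _ hβ
  rw [← mcls_self p, ← h1]

/-- Generation is transitive. -/
theorem img_gen {Γ : Type u} [Group Γ] {ι : Sort*} {H : Subgroup Γ} (G : ι → Subgroup H)
    (k : Type u) [Ring k] (h : ⨆ i, img k (G i) = ⊤) (A : AddSubgroup (K0 (MonoidAlgebra k Γ)))
    (hA : ∀ i, img k ((G i).map H.subtype) ≤ A) : img k H ≤ A := by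
  rw [img, AddMonoidHom.range_eq_map, ← h, AddSubgroup.map_iSup]
  refine iSup_le fun i => ?_
  refine le_trans ?_ (hA i)
  rintro _ ⟨_, ⟨z, rfl⟩, rfl⟩
  let φ : G i →* (G i).map H.subtype :=
    { toFun := fun g => ⟨g.1.1, g.1, g.2, rfl⟩
      map_one' := rfl
      map_mul' := fun _ _ => rfl }
  refine ⟨K0.map (mdr k φ) z, ?_⟩
  rw [k0_map_map, mdr_comp_mdr, k0_map_map, mdr_comp_mdr]
  rfl

/-- Generation by a class of subgroups is local: let `P` be a property of subgroups of `Γ`. If every
finite subset is in a subgroup `H` such that `K₀(k[H])` is generated by subgroups with `P`, then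
`K₀(k[Γ])` is generated by the subgroups with `P`. -/
theorem gen_of_loc {Γ : Type u} [Group Γ] (P : Subgroup Γ → Prop)
    (h : ∀ S : Finset Γ, ∃ H : Subgroup Γ, (∀ s ∈ S, s ∈ H) ∧
      ∀ (k : Type u) [Ring k], RegularRing k →
        ⨆ G : {G : Subgroup H // P (G.map H.subtype)}, img k G.1 = ⊤)
    (k : Type u) [Ring k] (hk : RegularRing k) :
    ⨆ G : {G : Subgroup Γ // P G}, img k G.1 = ⊤ := by
  refine gen_loc k _ fun S => ?_
  obtain ⟨H, hS, hH⟩ := h S
  refine ⟨H, hS, img_gen (fun G : {G : Subgroup H // P (G.map H.subtype)} => G.1) k (hH k hk) _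
    fun G => ?_⟩
  exact le_iSup (fun G : {G : Subgroup Γ // P G} => img k G.1) ⟨_, G.2⟩

/-- Generation for all negative K-groups. -/
theorem kneg_of_gen {Γ : Type u} [Group Γ] (P : Subgroup Γ → Prop)
    (h : ∀ (k : Type u) [Ring k], RegularRing k →
      ⨆ G : {G : Subgroup Γ // P G}, img k G.1 = ⊤) (n : ℕ) (k : Type u) [Ring k]
    (hk : RegularRing k) :
    ⨆ G : {G : Subgroup Γ // P G}, ((KNegFun n).hom (mdr k G.1.subtype)).range = ⊤ :=
  H19.vgen (fun G : {G : Subgroup Γ // P G} => G.1) h n k hk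

end Pool.Agent.NegK.NT.ER71
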