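import Pool.Agent.Lib.MP_28303a_al.NT.ER71.Iter
import Pool.Agent.Lib.MP_28303a_al.NT.ER71.Gen
import Pool.Agent.Lib.MP_28303a_al.NT.ER27.Res
import Pool.Agent.Lib.MP_28303a_al.NT.ER47.Cl
import Pool.Agent.Lib.MP_28303a_al.NT.ER47.Tr
import Pool.Agent.Lib.MP_28303a_al.NT.ER47.Ys
import Pool.Agent.Lib.MP_28303a_al.NT.ER53.Ind
import Pool.Agent.Lib.MP_28303a_al.NT.ER60.Zr
import Pool.Agent.Lib.MP_28303a_al.NT.ER61.SysR
import Pool.Agent.Lib.MP_28303a_al.NT.ER68.Kg
import Pool.Agent.Lib.MP_28303a_al.NT.ER73.Rr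
import Pool.Agent.Lib.MP_28303a_al.NT.ER91.Base0
import Pool.Agent.Lib.MP_28303a_al.NT.ER94.Yr
import Pool.Agent.Lib.MP_28303a_al.NT.ER98.Zs
import Pool.Agent.Lib.MP_28303a_al.NT.ER98.Ve

/-! # The relative theorem for products of trees: the complete assembly -/

set_option autoImplicit false
set_option linter.unusedSectionVars false
set_option linter.unusedVariables false

namespace Pool.Agent.NegK.NT.ER71

universe u

open CategoryTheory Limits
open Pool.Agent.NegK.TW Pool.Agent.NegK.NT.ER

theorem zrS : ZrStatement.{u} := ER.zr goodS ER73.rrS ER.zs ER.ve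

/-- The relative theorem for one tree. -/
theorem relAll : RelStatement.{u} :=
  rel (ER27.res ER73.rrS ER.zs ER47.tr zrS (ER.yr goodS ER47.ys) goodS) ER47.cl ER91.base
    ER53.ind ER68.kg ER61.sysS

section

variable {Γ : Type u} [Group Γ] (Y : Trees Γ) (I : Finset (Fin Y.m)) (h : EdgeR Y I)

include h

/-- The relative theorem: `K₀` is generated by the stabilizers of the coordinates in `I`. -/
theorem genAll (k : Type u) [Ring k] (hk : RegularRing k) :
    ⨆ v : ∀ i, Y.V i, img k (stI Y I v) = ⊤ := iter relAll Y I h k hk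

/-- The negative K-groups are generated by the stabilizers of the coordinates in `I`. -/
theorem knegAll (R : Type u) [Ring R] (hR : RegularRing R) (n : ℕ) :
    ⨆ v : ∀ i, Y.V i, ((KNegFun n).hom (mdr R (stI Y I v).subtype)).range = ⊤ :=
  iter_kneg relAll Y I h R hR n

end

theorem inLAll : TreesI.{u} H19.InL := treesI_inL relAll

theorem inKAll : TreesI.{u} InK := treesI_inK relAll

end Pool.Agent.NegK.NT.ER71
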