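import Pool.Agent.Lib.MP_28303a_al.NT.ER71.All
import Pool.Agent.Lib.MP_28303a_al.NT5.C0

/-! # The input of the reduction to algebraic traces -/

set_option autoImplicit false

namespace Pool.Agent.NegK.NT.ER71

universe u

open Pool.Agent.NegK.TW Pool.Agent.NegK.TT

theorem itAll : NT5.ItStatement.{u} := fun _ _ Y I h k _ hk => genAll Y I h k hk

/-- C0 without hypotheses. -/
theorem c0All (A : Type u) [CommRing A] (N : ℕ) (hN : 0 < N)
    (hA : (N : A) = 0) (K : Type u) [Field K] [CharZero K]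
    (Γ : Type u) [Group Γ] (φ : Γ →* Matrix.GeneralLinearGroup (Fin 2) A)
    (ψ : Γ →* Matrix.GeneralLinearGroup (Fin 2) K)
    (htf : ∀ (g : Γ) (n : ℕ), 0 < n → φ g ^ n = 1 → ψ g ^ n = 1 → φ g = 1 ∧ ψ g = 1)
    (hker : ∀ (H : Type u) [Group H] (f : H →* Γ), Function.Injective f →
      (∀ h, φ (f h) = 1 ∧ ψ (f h) = 1) → InN H)
    (k : Type u) [Ring k] (hk : RegularRing k) :
    ⨆ H : {H : Subgroup Γ // NT5.AlgTr ψ H}, img k H.1 = ⊤ :=
  NT5.c0 itAll A N hN hA K Γ φ ψ htf hker k hk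

end Pool.Agent.NegK.NT.ER71
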