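import Pool.Agent.Lib.MP_28303a_al.NT.ER.Defs

/-! # The relative theorem: the assembly -/

set_option autoImplicit false
set_option linter.unusedSectionVars false
set_option linter.unusedVariables false

namespace Pool.Agent.NegK.NT.ER71

universe u

open CategoryTheory Limits
open Pool.Agent.NegK.TW Pool.Agent.NegK.NT.ER

theorem img_top (k : Type u) [Ring k] (Γ : Type u) [Group Γ] {H : Subgroup Γ} (h : H = ⊤) :
    img k H = ⊤ := by
  subst h
  rw [eq_top_iff]
  intro z _
  refine ⟨K0.map (mdr k (Subgroup.topEquiv.symm : Γ ≃* (⊤ : Subgroup Γ)).toMonoidHom) z, ?_⟩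
  rw [k0_map_map, mdr_comp_mdr]
  have h1 : ((⊤ : Subgroup Γ).subtype).comp
      (Subgroup.topEquiv.symm : Γ ≃* (⊤ : Subgroup Γ)).toMonoidHom = MonoidHom.id Γ :=
    MonoidHom.ext fun g => rfl
  rw [h1, mdr_id, k0_map_id]

/-- A tree without edges has one vertex. -/
theorem no_edge {V : Type u} {G : SimpleGraph V} (hG : G.IsTree)
    (h : ¬ ∃ v w : V, G.Adj v w) (v w : V) : v = w := by
  obtain ⟨p⟩ := hG.connected.preconnected v w
  cases p with
  | nil => rfl
  | cons hvw _ => exact absurd ⟨_, _, hvw⟩ h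

theorem rel (hRes : ResStatement.{u}) (hCl : ClStatement.{u}) (hBase : BaseStatement.{u})
    (hInd : IndStatement.{u}) (hKg : KgStatement.{u}) (hSys : SysStatement.{u}) :
    RelStatement.{u} := by
  intro Γ _ Y j hst k _ hk
  by_cases hE : ∃ v w : Y.V j, (Y.G j).Adj v w
  · obtain ⟨T, hm, D, j', aV, aE, K, hnv, hlab, sz, hsz⟩ := hSys Γ Y j hE
    have hU : ∀ U ∈ nv K, InRC (MulAction.stabilizer Γ U) := fun U hU => by
      obtain ⟨v, w, hvw, hle⟩ := hnv U hU
      exact TT.inRC_le TT.H91.sub hle (hst v w hvw)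
    have hB : ∀ J : Finset (Fin T.m), j' ∈ J → T.EXT Finset.univ J :=
      hBase Γ T D j' (H32.ret T (H47.kos T)) fun k _ hk =>
        ⟨fun M => AA (nv K) M, hCl Γ T D j' K hU k hk,
          fun M hM hT => hRes Γ T D j' K hU k hk M hM hT⟩
    have hI := hInd Γ T j' (stepB T) hB k hk
    have hG := hKg Γ T j' ⟨sz, hsz⟩ k hI
    rw [eq_top_iff, ← hG]
    refine iSup_le fun x => ?_
    obtain ⟨v, hv⟩ := hlab x
    exact le_trans (img_le hv) (le_iSup (fun v => img k (MulAction.stabilizer Γ v)) v)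
  · have hT := (Y.tree j).tree
    obtain ⟨v⟩ := hT.connected.nonempty
    rw [eq_top_iff, ← img_top k Γ (H := MulAction.stabilizer Γ v)
      (Subgroup.ext fun g => ⟨fun _ => Subgroup.mem_top g, fun _ => no_edge hT hE _ _⟩)]
    exact le_iSup (fun v => img k (MulAction.stabilizer Γ v)) v

end Pool.Agent.NegK.NT.ER71
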