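import Pool.Agent.Lib.MP_28303a_al.NT5.C0
import Pool.Agent.Lib.MP_28303a_al.NT.Main

/-! # Groups of triangular matrices -/

set_option autoImplicit false
set_option linter.unusedSectionVars false
set_option linter.unusedVariables false

namespace Pool.Agent.NegK.NT.ER71

universe u

open Matrix WithZero
open Pool.Agent.NegK.TW
open Pool.Agent.NegK.TT
open Pool.Agent.NegK.NT
open Pool.Agent.NegK.NT5
open Pool.Agent.NegK.NT.H1 (TD)

/-- The commutators of upper triangular matrices have trace `2`. -/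
theorem trace_comm {K : Type*} [Field K] {G : Type*} [Group G] (ψ : G →* GL (Fin 2) K)
    (h10 : ∀ g, (ψ g).1 1 0 = 0) : ∀ c ∈ commutator G, Matrix.trace (ψ c).1 = 2 := by
  let a : G →* K :=
    { toFun := fun g => (ψ g).1 0 0
      map_one' := by
        rw [map_one, Units.val_one, Matrix.one_apply_eq]
      map_mul' := fun g h => by
        rw [map_mul, Units.val_mul, Matrix.mul_apply, Fin.sum_univ_two, h10 h, mul_zero,
          add_zero] }
  let d : G →* K :=
    { toFun := fun g => (ψ g).1 1 1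
      map_one' := by
        rw [map_one, Units.val_one, Matrix.one_apply_eq]
      map_mul' := fun g h => by
        rw [map_mul, Units.val_mul, Matrix.mul_apply, Fin.sum_univ_two, h10 g, zero_mul,
          zero_add] }
  have key : ∀ (f : G →* K) (c : G), c ∈ commutator G → f c = 1 := fun f c hc => by
    have h1 : f.toHomUnits c = 1 := Abelianization.commutator_subset_ker f.toHomUnits hc
    have h2 := congrArg Units.val h1
    exact h2
  intro c hc
  have h1 : (ψ c).1 0 0 = 1 := key a c hc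
  have h2 : (ψ c).1 1 1 = 1 := key d c hc
  rw [Matrix.trace_fin_two, h1, h2]
  norm_num

/-- Any finite index set. -/
theorem trees_fin (Γ : Type u) [Group Γ] (ι : Type) [Finite ι] (T : ι → TD Γ)
    (hE : ∀ H : Subgroup Γ, (∀ g ∈ H, ∀ a, (T a).Ell g) → InRC H) : H19.InL Γ := by
  classical
  have := Fintype.ofFinite ι
  let e := Fintype.equivFin ι
  let Y : Trees Γ := ⟨Fintype.card ι, fun j => (T (e.symm j)).V, fun j => (T (e.symm j)).act,
    fun j => (T (e.symm j)).G, fun j => (T (e.symm j)).tree⟩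
  refine trees_inL Y fun v => hE _ fun g hg a => ?_
  have h2 : (T (e.symm (e a))).Ell g := ⟨v (e a), (Subgroup.mem_iInf.1 hg) (e a)⟩
  rwa [e.symm_apply_apply] at h2

/-- Finitely generated groups over finitely generated fields. -/
theorem trig_fg (A : Type u) [CommRing A] (N : ℕ) (hN : 0 < N)
    (hA : (N : A) = 0) (L : Type u) [Field L] [CharZero L] (E : Set L)
    (m : ℕ) (v : Fin m → Valuation L (WithZero (Multiplicative ℤ)))
    (hv : ∀ a ∈ Subring.closure E, (∀ i, v i a ≤ 1) → IsIntegral ℤ a)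
    (Γ : Type u) [Group Γ] [Group.FG Γ] (φ : Γ →* GL (Fin 2) A) (ψ : Γ →* GL (Fin 2) L)
    (hB : ∀ g i j, (ψ g).1 i j ∈ Subring.closure E) (h10 : ∀ g, (ψ g).1 1 0 = 0)
    (htf : ∀ (g : Γ) (n : ℕ), 0 < n → φ g ^ n = 1 → ψ g ^ n = 1 → φ g = 1 ∧ ψ g = 1)
    (hker : ∀ (H : Type u) [Group H] (f : H →* Γ), Function.Injective f →
      (∀ h, φ (f h) = 1 ∧ ψ (f h) = 1) → InN H) : H19.InL Γ := by
  obtain ⟨ι, _, T, hTA⟩ := gl2_trees' A N hN hA Γ φ
  choose T1 hT1 using fun a => H1.exists_TD_gl L (v a)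
  choose T2 hT2 using fun a => H1.exists_TD_line _ ((vdet (v a)).comp ψ)
  have hdet : ∀ g, Matrix.det (ψ g).1 ∈ Subring.closure E := by
    intro g
    rw [Matrix.det_fin_two]
    exact Subring.sub_mem _ (Subring.mul_mem _ (hB g 0 0) (hB g 1 1))
      (Subring.mul_mem _ (hB g 0 1) (hB g 1 0))
  have htr : ∀ g, Matrix.trace (ψ g).1 ∈ Subring.closure E := by
    intro g
    rw [Matrix.trace_fin_two]
    exact Subring.add_mem _ (hB g 0 0) (hB g 1 1)
  refine trees_fin Γ ((Fin m ⊕ Fin m) ⊕ ι)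
    (Sum.elim (Sum.elim (fun a => (T1 a).comp ψ) T2) T) fun H hell => ?_
  have hdv : ∀ g ∈ H, ∀ b, v b (Matrix.det (ψ g).1) = 1 := fun g hg b =>
    vdet_eq_one (v b) (hT2 b g (hell g hg (Sum.inl (Sum.inr b))))
  have htv : ∀ g ∈ H, ∀ b, v b (Matrix.trace (ψ g).1) ≤ 1 := fun g hg b =>
    hT1 b (ψ g) (hell g hg (Sum.inl (Sum.inl b))) (hdv g hg b).le
  have hfin : ∀ g ∈ H, ∃ n, 0 < n ∧ φ g ^ n = 1 := fun g hg =>
    hTA g fun i => hell g hg (Sum.inr i)
  have htf' : ∀ g ∈ H, ∀ n : ℕ, 0 < n → ψ g ^ n = 1 → φ g = 1 ∧ ψ g = 1 := by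
    intro g hg n hn h1
    obtain ⟨m, hm, h2⟩ := hfin g hg
    refine htf g (m * n) (Nat.mul_pos hm hn) ?_ ?_
    · rw [pow_mul, h2, one_pow]
    · rw [mul_comm, pow_mul, h1, one_pow]
  refine H80.inRC_slv (ψ.comp H.subtype)
    (fun g => hv _ (htr g.1) fun b => htv g.1 g.2 b)
    (fun g => hv _ (hdet g.1) fun b => (hdv g.1 g.2 b).le)
    (trace_comm (ψ.comp H.subtype) fun g => h10 g.1)
    (fun g n hn h => (htf' g.1 g.2 n hn h).2) fun G _ f hf h => ?_
  refine hker G (H.subtype.comp f) (Subtype.val_injective.comp hf) fun g => ?_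
  have h1 : ψ (f g).1 = 1 := h g
  exact htf' (f g).1 (f g).2 1 one_pos (by rw [pow_one]; exact h1)

/-- TRIG. Groups of triangular matrices. -/
theorem trig (A : Type u) [CommRing A] (N : ℕ) (hN : 0 < N) (hA : (N : A) = 0) (K : Type u)
    [Field K] [CharZero K] (Γ : Type u) [Group Γ] (φ : Γ →* GL (Fin 2) A)
    (ψ : Γ →* GL (Fin 2) K) (h10 : ∀ g, (ψ g).1 1 0 = 0)
    (htf : ∀ (g : Γ) (n : ℕ), 0 < n → φ g ^ n = 1 → ψ g ^ n = 1 → φ g = 1 ∧ ψ g = 1)
    (hker : ∀ (H : Type u) [Group H] (f : H →* Γ), Function.Injective f →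
      (∀ h, φ (f h) = 1 ∧ ψ (f h) = 1) → InN H) : H19.InL Γ := by
  classical
  refine ((TT.main.{u}).2.2.2.1 Γ).2.2.2.2.1 fun S =>
    ⟨Subgroup.closure (S : Set Γ), fun s hs => Subgroup.subset_closure hs, ?_⟩
  obtain ⟨E, hE⟩ := entries ψ S
  let B : Subring K := Subring.closure (E : Set K)
  let L := FractionRing B
  have hBL : Function.Injective (algebraMap B L) := IsFractionRing.injective B L
  have hcz : CharZero B := by
    refine charZero_of_injective_ringHom (f := (Int.castRingHom B)) fun a b hab => ?_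
    have h1 := congrArg Subtype.val hab
    have h2 : ((a : ℤ) : K) = b := by
      simpa using h1
    exact_mod_cast h2
  have hczL : CharZero L := charZero_of_injective_algebraMap hBL
  let ι : L →+* K := IsFractionRing.lift (g := B.subtype) Subtype.val_injective
  have hι : ∀ b : B, ι (algebraMap B L b) = (b : K) := fun b =>
    IsFractionRing.lift_algebraMap (g := B.subtype) Subtype.val_injective b
  let χ : Subgroup.closure (S : Set Γ) →* Matrix (Fin 2) (Fin 2) B :=
    { toFun := fun g => Matrix.of fun i j => ⟨(ψ g.1).1 i j, hE g.1 g.2 i j⟩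
      map_one' := by
        ext i j
        change (ψ 1).1 i j = (((1 : Matrix (Fin 2) (Fin 2) B) i j : B) : K)
        rw [map_one, Units.val_one, Matrix.one_apply, Matrix.one_apply]
        split_ifs <;> rfl
      map_mul' := fun g h => by
        ext i j
        rw [Matrix.mul_apply]
        change (ψ (g.1 * h.1)).1 i j = ((∑ k, _ : B) : K)
        rw [map_mul, Units.val_mul, Matrix.mul_apply, AddSubmonoidClass.coe_finsetSum]
        rfl }
  let ψ0 : Subgroup.closure (S : Set Γ) →* GL (Fin 2) L :=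
    (GeneralLinearGroup.map (algebraMap B L)).comp χ.toHomUnits
  have h0 : ∀ g i j, (ψ0 g).1 i j = algebraMap B L ⟨(ψ g.1).1 i j, hE g.1 g.2 i j⟩ :=
    fun g i j => rfl
  have h1 : ∀ g, GeneralLinearGroup.map ι (ψ0 g) = ψ g.1 := by
    intro g
    refine Units.ext (Matrix.ext fun i j => ?_)
    show ι ((ψ0 g).1 i j) = _
    rw [h0, hι]
  have h2 : ∀ g, ψ0 g = 1 ↔ ψ g.1 = 1 := by
    intro g
    rw [← h1]
    constructor
    · intro h
      rw [h, map_one]
    · intro h
      exact map_inj ι (h.trans (map_one _).symm)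
  let E' : Finset B := (E.finite_toSet.preimage
    (f := ((↑) : B → K)) Subtype.val_injective.injOn).toFinset
  have hE' : Subring.closure (E' : Set B) = ⊤ := by
    rw [Set.Finite.coe_toFinset, eq_top_iff]
    intro x _
    have h3 : (x : K) ∈ (Subring.closure (((↑) : B → K) ⁻¹' (E : Set K))).map B.subtype := by
      rw [RingHom.map_closure]
      refine Subring.closure_mono ?_ x.2
      intro y hy
      exact ⟨⟨y, Subring.subset_closure hy⟩, hy, rfl⟩
    obtain ⟨y, hy, hxy⟩ := h3
    rwa [Subtype.ext (a1 := x) (a2 := y) hxy.symm]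
  obtain ⟨m, v, hv⟩ := H70.valg B E' hE' L
  have hcl : Subring.closure (algebraMap B L '' (E' : Set B)) = (algebraMap B L).range := by
    rw [← RingHom.map_closure, hE', ← RingHom.range_eq_map]
  have hcl' : ∀ b : B, algebraMap B L b ∈ Subring.closure (algebraMap B L '' (E' : Set B)) :=
    fun b => by
      rw [hcl]
      exact ⟨b, rfl⟩
  refine trig_fg A N hN hA L (algebraMap B L '' (E' : Set B)) m v (fun a ha h => ?_)
    (Subgroup.closure (S : Set Γ)) (φ.comp (Subgroup.subtype _)) ψ0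
    (fun g i j => by rw [h0]; exact hcl' _) (fun g => ?_) (fun g n hn h3 h4 => ?_)
    (fun H _ f hf h => hker H ((Subgroup.subtype _).comp f) (Subtype.val_injective.comp hf)
        fun x => ⟨(h x).1, (h2 _).1 (h x).2⟩)
  · rw [hcl] at ha
    obtain ⟨b, rfl⟩ := ha
    exact map_isIntegral_int (algebraMap B L) (hv b h)
  · rw [h0]
    have h3 : (⟨(ψ g.1).1 1 0, hE g.1 g.2 1 0⟩ : B) = 0 := Subtype.ext (h10 g.1)
    rw [h3, map_zero]
  · have h5 : ψ g.1 ^ n = 1 := by
      rw [← h1, ← map_pow, h4, map_one]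
    have h6 := htf g.1 n hn h3 h5
    exact ⟨h6.1, (h2 g).2 h6.2⟩

end Pool.Agent.NegK.NT.ER71
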